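import Pool.Agent.H61.KU.TB

/-!
# Module GAU of the board ku_modules (MP_c11ac4_gt)
-/

set_option autoImplicit false

open Set Topology

namespace Pool.Agent.H67.KU

open Pool.Agent.H61.KU

theorem pf_gau : T_GAU := by
  intro V _ _ _ K hK hc h0
  have hn : K ∈ 𝓝 (0 : V) := mem_interior_iff_mem_nhds.mp h0
  have habs : Absorbent ℝ K := absorbent_nhds_zero hn
  have hb : Bornology.IsVonNBounded ℝ K :=
    (NormedSpace.isVonNBounded_iff ℝ).mpr hK.isBounded
  have hcl : closure K = K := hK.isClosed.closure_eq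
  refine ⟨?_, continuous_gauge hc hn, ?_, ?_, ?_, ?_⟩
  · intro u hu
    exact (gauge_pos habs hb).mpr hu
  · intro u hu
    have hp : 0 < gauge K u := (gauge_pos habs hb).mpr hu
    rw [← gauge_eq_one_iff_mem_frontier hc hn]
    unfold rad
    rw [gauge_smul_of_nonneg (inv_nonneg.mpr hp.le), smul_eq_mul, inv_mul_cancel₀ hp.ne']
  · intro u
    exact (gauge_eq_one_iff_mem_frontier hc hn).symm
  · intro u
    rw [gauge_le_one_iff_mem_closure hc hn, hcl]
  · intro u
    exact (gauge_lt_one_iff_mem_interior hc hn).symm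

end Pool.Agent.H67.KU
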