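import Pool.Agent.H61.KU.TB

/-!
# Module OTI of the board ku_modules (MP_c11ac4_gt)
-/

set_option autoImplicit false

open Set Topology
open Pool.Agent.H59 Pool.Agent.H64.LB

namespace Pool.Agent.H67.KU

open Pool.Agent.H61.KU

theorem pf_oti (hC : T_CS) : T_OTI := by
  intro f ht ξ c i
  by_cases hξ : ξ = 0
  · subst hξ
    by_cases hc : 0 < c
    · have hmem : ∀ x : PN 2, x ∈ {x : PN 2 | inner ℝ (0 : E8) (f x) < c} := by
        intro x
        simpa using hc
      generalize {x : PN 2 | inner ℝ (0 : E8) (f x) < c} = O at hmem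
      let g : C(PN 2, O) := ⟨fun x => ⟨x, hmem x⟩, by fun_prop⟩
      have hgi : g.comp (inc O) = ContinuousMap.id O := by
        ext x
        rfl
      intro a b hab
      have h1 := congrArg (HH.map (ZMod 2) i g) hab
      rw [← HH.map_comp, ← HH.map_comp, hgi, HH.map_id, HH.map_id] at h1
      exact h1
    · have hemp : {x : PN 2 | inner ℝ (0 : E8) (f x) < c} = ∅ := by
        ext x
        simpa using not_lt.mp hc
      rw [hemp]
      have hE : IsEmpty (Smp (i + 1) (∅ : Set (PN 2))) := by
        constructor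
        intro s
        exact (s ⟨Pi.single 0 1, by
          refine ⟨?_, ?_⟩
          · intro j
            by_cases h : j = 0
            · subst h; simp
            · simp [h]
          · simp⟩).2
      intro a b hab
      induction a using HH.ind with
      | h x =>
        induction b using HH.ind with
        | h y =>
          have : x = y := by
            apply Subtype.ext
            apply Finsupp.ext
            intro s
            exact (hE.false s).elim
          rw [this]
  · set F : Set (Set (PN 2)) :=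
      range (fun ε : {ε : ℝ // 0 < ε} => {x : PN 2 | inner ℝ ξ (f x) < c - ε.1}) with hF
    have hOF : {x : PN 2 | inner ℝ ξ (f x) < c} = ⋃₀ F := by
      ext x
      constructor
      · intro h
        have h0 : inner ℝ ξ (f x) < c := h
        refine ⟨_, ⟨⟨(c - inner ℝ ξ (f x)) / 2, by linarith⟩, rfl⟩, ?_⟩
        show inner ℝ ξ (f x) < c - (c - inner ℝ ξ (f x)) / 2
        linarith
      · rintro ⟨_, ⟨⟨ε, hε⟩, rfl⟩, h⟩
        have h' : inner ℝ ξ (f x) < c - ε := h
        show inner ℝ ξ (f x) < c
        linarith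
    rw [hOF]
    have hopen : ∀ U ∈ F, IsOpen U := by
      rintro U ⟨ε, rfl⟩
      exact isOpen_lt (continuous_const.inner f.continuous) continuous_const
    have hne : F.Nonempty := ⟨_, ⟨⟨1, one_pos⟩, rfl⟩⟩
    have hdir : DirectedOn (· ⊆ ·) F := by
      rintro _ ⟨⟨ε, hε⟩, rfl⟩ _ ⟨⟨δ, hδ⟩, rfl⟩
      refine ⟨_, ⟨⟨min ε δ, lt_min hε hδ⟩, rfl⟩, ?_, ?_⟩
      · intro x hx
        have hx' : inner ℝ ξ (f x) < c - ε := hx
        show inner ℝ ξ (f x) < c - min ε δ
        have := min_le_left ε δ
        linarith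
      · intro x hx
        have hx' : inner ℝ ξ (f x) < c - δ := hx
        show inner ℝ ξ (f x) < c - min ε δ
        have := min_le_right ε δ
        linarith
    rw [injective_iff_map_eq_zero]
    intro z hz
    obtain ⟨U, hU, z', hz'⟩ := (hC (ZMod 2) (PN 2) F hopen hne hdir i).1 z
    obtain ⟨⟨ε, hε⟩, hUe⟩ := id hU
    have h1 : U ⊆ {x : PN 2 | inner ℝ ξ (f x) ≤ c - ε} := by
      rw [← hUe]
      intro x hx
      have hx' : inner ℝ ξ (f x) < c - ε := hx
      exact hx'.le
    have h2 : {x : PN 2 | inner ℝ ξ (f x) ≤ c - ε} ⊆ ⋃₀ F := by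
      intro x hx
      refine ⟨_, ⟨⟨ε / 2, by linarith⟩, rfl⟩, ?_⟩
      have hx' : inner ℝ ξ (f x) ≤ c - ε := hx
      show inner ℝ ξ (f x) < c - ε / 2
      linarith
    have h3 : HH.map (ZMod 2) i (inc {x : PN 2 | inner ℝ ξ (f x) ≤ c - ε})
        (HH.map (ZMod 2) i (incS h1) z') = 0 := by
      rw [← HH.map_comp]
      have e : (inc {x : PN 2 | inner ℝ ξ (f x) ≤ c - ε}).comp (incS h1)
          = (inc (⋃₀ F)).comp (incS (subset_sUnion_of_mem hU)) := by
        ext x
        rfl
      rw [e, HH.map_comp, hz', hz]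
    have h4 : HH.map (ZMod 2) i (incS h1) z' = 0 := by
      apply ht ξ (c - ε) hξ i
      rw [h3, map_zero]
    rw [← hz']
    have e2 : incS (subset_sUnion_of_mem hU) = (incS h2).comp (incS h1) := by
      ext x
      rfl
    rw [e2, HH.map_comp, h4, map_zero]

end Pool.Agent.H67.KU
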