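import Pool.Agent.H61.KU.TB

/-!
# Module SIT of the board ku_modules (MP_c11ac4_gt)
-/

set_option autoImplicit false

open Set Topology
open Pool.Agent.H59 Pool.Agent.H64.LB

namespace Pool.Agent.H67.KU

open Pool.Agent.H61.KU

theorem pf_sit (hO : T_OTI) : T_SIT := by
  intro f hinj htight hsub hS
  obtain ⟨S, hSfin, hSK⟩ := hS
  set K : Set E8 := convexHull ℝ (range f) with hKdef
  have hKc : IsCompact K := by rw [hSK]; exact hSfin.isCompact_convexHull (𝕜 := ℝ)
  have hKconv : Convex ℝ K := convex_convexHull ℝ _
  have hVS : K.extremePoints ℝ ⊆ S := by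
    rw [hSK]; exact extremePoints_convexHull_subset
  have hVf : K.extremePoints ℝ ⊆ range f := extremePoints_convexHull_subset
  have hVfin : (K.extremePoints ℝ).Finite := hSfin.subset hVS
  obtain ⟨n, v, hv⟩ := hVfin.fin_embedding
  have hVK : convexHull ℝ (K.extremePoints ℝ) = K := by
    have h1 := closure_convexHull_extremePoints hKc hKconv
    rwa [(hVfin.isCompact_convexHull (𝕜 := ℝ)).isClosed.closure_eq] at h1
  have hvV : ∀ i, v i ∈ K.extremePoints ℝ := fun i => by
    rw [← hv]; exact mem_range_self i
  refine ⟨n, v, hinj, hO f htight, fun i => hVf (hvV i), ?_, ?_⟩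
  · intro x
    rw [hv, hVK]
    exact subset_convexHull ℝ _ (mem_range_self x)
  · constructor
    · -- the family spans
      by_contra hne
      obtain ⟨l, hl0, hl⟩ := Submodule.exists_le_ker_of_lt_top _ (lt_top_iff_ne_top.mpr hne)
      have hlv : ∀ i, l (v i, 1) = 0 := by
        intro i
        have : hom v i ∈ sp (hom v) Finset.univ :=
          Submodule.subset_span ⟨i, by simp, rfl⟩
        exact LinearMap.mem_ker.mp (hl this)
      set g : E8 →ₗ[ℝ] ℝ := l.comp (LinearMap.inl ℝ E8 ℝ) with hg
      have hlg : ∀ (x : E8) (t : ℝ), l (x, t) = g x + t * l (0, 1) := by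
        intro x t
        have : ((x, t) : E8 × ℝ) = (x, 0) + t • ((0 : E8), (1 : ℝ)) := by
          simp
        rw [this, map_add, map_smul]
        simp [hg]
      have hgK : ∀ x ∈ K, g x = - l (0, 1) := by
        intro x hx
        rw [← hVK] at hx
        have hcv : Convex ℝ {x : E8 | g x = - l (0, 1)} :=
          (convex_hyperplane g.isLinear (- l (0, 1)))
        have hsub' : K.extremePoints ℝ ⊆ {x : E8 | g x = - l (0, 1)} := by
          intro y hy
          rw [← hv] at hy
          obtain ⟨i, rfl⟩ := hy
          have := hlv i
          rw [hlg] at this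
          show g (v i) = - l (0, 1)
          linarith
        exact convexHull_min hsub' hcv hx
      set ξ : E8 := (InnerProductSpace.toDual ℝ E8).symm (LinearMap.toContinuousLinearMap g)
        with hξ
      have hξg : ∀ x, inner ℝ ξ x = g x := by
        intro x
        rw [hξ, InnerProductSpace.toDual_symm_apply]
        rfl
      by_cases h0 : ξ = 0
      · have hg0 : ∀ x, g x = 0 := by
          intro x; rw [← hξg, h0, inner_zero_left]
        obtain ⟨x, -⟩ := hsub (EuclideanSpace.single 0 1) 0 (by
          intro h
          have := congrArg (fun z : E8 => z 0) h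
          simp at this)
        have h1 := hgK (f x) (subset_convexHull ℝ _ (mem_range_self x))
        rw [hg0] at h1
        apply hl0
        apply LinearMap.ext
        rintro ⟨y, t⟩
        rw [hlg, hg0]
        have : l (0, 1) = 0 := by linarith
        rw [this]; simp
      · obtain ⟨x, hx⟩ := hsub ξ (- l (0, 1)) h0
        apply hx
        rw [hξg]
        exact hgK (f x) (subset_convexHull ℝ _ (mem_range_self x))
    · refine ⟨LinearMap.snd ℝ E8 ℝ, ?_, ?_⟩
      · intro i; simp [hom]
      · intro i; simp [hom]
    · intro i
      have hx := (hKconv.mem_extremePoints_iff_mem_sdiff_convexHull_sdiff).mp (hvV i)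
      have hsubK : K.extremePoints ℝ \ {v i} ⊆ K \ {v i} :=
        sdiff_subset_sdiff_left extremePoints_subset
      have hni : v i ∉ convexHull ℝ (K.extremePoints ℝ \ {v i}) := fun h =>
        hx.2 (convexHull_mono hsubK h)
      have hfin' : (K.extremePoints ℝ \ {v i}).Finite := hVfin.subset sdiff_subset
      obtain ⟨g, u, hgu, hgt⟩ := geometric_hahn_banach_point_closed
        (convex_convexHull ℝ (K.extremePoints ℝ \ {v i}))
        (hfin'.isCompact_convexHull (𝕜 := ℝ)).isClosed hni
      refine ⟨(g : E8 →ₗ[ℝ] ℝ).comp (LinearMap.fst ℝ E8 ℝ)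
        - (g (v i)) • LinearMap.snd ℝ E8 ℝ, ?_, ?_⟩
      · intro j
        by_cases hji : j = i
        · subst hji
          simp [hom]
        · have hmem : v j ∈ convexHull ℝ (K.extremePoints ℝ \ {v i}) :=
            subset_convexHull ℝ _ ⟨hvV j, fun h => hji (v.injective h)⟩
          have := hgt _ hmem
          simp only [hom, LinearMap.sub_apply, LinearMap.comp_apply, LinearMap.fst_apply,
            LinearMap.smul_apply, LinearMap.snd_apply, smul_eq_mul, mul_one,
            ContinuousLinearMap.coe_coe]
          linarith
      · intro j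
        rw [Finset.mem_singleton]
        constructor
        · intro h
          by_contra hji
          have hmem : v j ∈ convexHull ℝ (K.extremePoints ℝ \ {v i}) :=
            subset_convexHull ℝ _ ⟨hvV j, fun h => hji (v.injective h)⟩
          have := hgt _ hmem
          simp only [hom, LinearMap.sub_apply, LinearMap.comp_apply, LinearMap.fst_apply,
            LinearMap.smul_apply, LinearMap.snd_apply, smul_eq_mul, mul_one,
            ContinuousLinearMap.coe_coe] at h
          linarith
        · rintro rfl
          simp [hom]

end Pool.Agent.H67.KU
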